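import Mathlib

/-!
# Sufficient conditions for semisparse subgroups of string C-groups

Key step: if all conjugates of `S` are semisparse, then
`S ∩ Γ_{<j} Γ_{>i} = (S ∩ Γ_{<j}) (S ∩ Γ_{>i})` for all `i < j`. This product property is lifted from
`Γ_0` and `Γ_{n-1}` to `Γ` with the help of the hypothesis on `Γ_0 Γ_{n-1}`, and it implies
semisparseness.
-/

namespace Pool.Agent.Results.MP_bc764a_al.SemisparseSufficient

open scoped Pointwise

variable {G : Type} [Group G]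

/-- The subgroup generated by the `ρ i` with `i ∈ I`. -/
def gen (ρ : ℕ → G) (I : Set ℕ) : Subgroup G := Subgroup.closure (ρ '' I)

/-- The subgroup `Γ_{<i}`. -/
def lt (ρ : ℕ → G) (i : ℕ) : Subgroup G := gen ρ {j | j < i}

/-- The subgroup `Γ_{>i}` in rank `n`. -/
def gt (n : ℕ) (ρ : ℕ → G) (i : ℕ) : Subgroup G := gen ρ {j | i < j ∧ j < n}

/-- The subgroup `Γ_i` in rank `n`. -/
def del (n : ℕ) (ρ : ℕ → G) (i : ℕ) : Subgroup G := gen ρ {j | j < n ∧ j ≠ i}

/-- The conjugate `S^φ = φ⁻¹ S φ`. -/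
def cj (S : Subgroup G) (φ : G) : Subgroup G := S.map (MulAut.conj φ⁻¹).toMonoidHom

/-- The elements `ρ 0, …, ρ (n - 1)` generate a string C-group (namely `gen ρ {j | j < n}`) of
rank `n`: they are involutions, `(ρ i * ρ j) ^ 2 = 1` if `|i - j| ≥ 2`, and the intersection
property holds. -/
structure IsStringC (n : ℕ) (ρ : ℕ → G) : Prop where
  involution : ∀ i < n, ρ i ≠ 1 ∧ ρ i ^ 2 = 1
  string : ∀ i j, i + 2 ≤ j → j < n → (ρ i * ρ j) ^ 2 = 1 ∧ (ρ j * ρ i) ^ 2 = 1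
  inter : ∀ I J : Set ℕ, I ⊆ {j | j < n} → J ⊆ {j | j < n} →
    gen ρ I ⊓ gen ρ J = gen ρ (I ∩ J)

/-- The subgroup `S` is semisparse in the string C-group of rank `n` generated by
`ρ 0, …, ρ (n - 1)`. -/
structure Semisparse (n : ℕ) (ρ : ℕ → G) (S : Subgroup G) : Prop where
  le : S ≤ gen ρ {j | j < n}
  one : ∀ φ ∈ gen ρ {j | j < n}, ∀ i < n,
    (cj S φ : Set G) ∩ ((del n ρ i : Set G) * {ρ i}) = ∅
  two : ∀ φ ∈ gen ρ {j | j < n}, ∀ i k j, i < k → k < j → j < n →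
    (gt n ρ i : Set G) ∩ ((lt ρ j : Set G) * (cj S φ : Set G)) ⊆
      (del n ρ k : Set G) * ((gt n ρ i : Set G) ∩ (lt ρ j : Set G)) * (cj S φ : Set G)
  three : ∀ i, i + 1 < n →
    (gt n ρ i : Set G) ∩ ((lt ρ (i + 1) : Set G) * (S : Set G)) ⊆ (S : Set G)

theorem mem_cj {S : Subgroup G} {φ x : G} : x ∈ cj S φ ↔ φ * x * φ⁻¹ ∈ S := by
  unfold cj
  rw [Subgroup.mem_map]
  constructor
  · rintro ⟨y, hy, rfl⟩
    have : φ * ((MulAut.conj φ⁻¹).toMonoidHom y) * φ⁻¹ = y := by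
      simp [mul_assoc]
    rwa [this]
  · intro h
    refine ⟨_, h, ?_⟩
    simp [mul_assoc]

theorem gen_mono {ρ : ℕ → G} {I J : Set ℕ} (h : I ⊆ J) : gen ρ I ≤ gen ρ J :=
  Subgroup.closure_mono (Set.image_mono h)

theorem mem_gen {ρ : ℕ → G} {I : Set ℕ} {i : ℕ} (h : i ∈ I) : ρ i ∈ gen ρ I :=
  Subgroup.subset_closure ⟨i, h, rfl⟩

theorem commute_gen {n : ℕ} {ρ : ℕ → G} (h : IsStringC n ρ) {k : ℕ} {v u : G}
    (hv : v ∈ gt n ρ k) (hu : u ∈ lt ρ k) : v * u = u * v := by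
  have key : ∀ i j, i < k → k < j → j < n → ρ j * ρ i = ρ i * ρ j := by
    intro i j hi hj hn
    have h1 := (h.involution i (by omega)).2
    have h2 := (h.involution j hn).2
    have h3 := (h.string i j (by omega) hn).1
    have e1 : (ρ i)⁻¹ = ρ i := by
      rw [inv_eq_iff_mul_eq_one, ← pow_two, h1]
    have e2 : (ρ j)⁻¹ = ρ j := by
      rw [inv_eq_iff_mul_eq_one, ← pow_two, h2]
    rw [pow_two, mul_eq_one_iff_eq_inv, mul_inv_rev, e1, e2] at h3
    exact h3.symm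
  have h1 : lt ρ k ≤ Subgroup.centralizer (ρ '' {j | k < j ∧ j < n}) := by
    unfold lt gen
    rw [Subgroup.closure_le]
    rintro _ ⟨i, hi, rfl⟩
    rw [SetLike.mem_coe, Subgroup.mem_centralizer_iff]
    rintro _ ⟨j, hj, rfl⟩
    exact key i j hi hj.1 hj.2
  have h2 : gt n ρ k ≤ Subgroup.centralizer (lt ρ k : Set G) := by
    unfold gt gen
    rw [Subgroup.closure_le]
    intro x hx
    rw [SetLike.mem_coe, Subgroup.mem_centralizer_iff]
    intro y hy
    exact (Subgroup.mem_centralizer_iff.1 (h1 hy) x hx).symm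
  exact (Subgroup.mem_centralizer_iff.1 (h2 hv) u hu).symm

theorem del_split {n : ℕ} {ρ : ℕ → G} (h : IsStringC n ρ) {k : ℕ} {x : G}
    (hx : x ∈ del n ρ k) : ∃ v ∈ gt n ρ k, ∃ u ∈ lt ρ k, x = v * u := by
  unfold del gen at hx
  induction hx using Subgroup.closure_induction with
  | mem x hx =>
    obtain ⟨j, ⟨hj, hjk⟩, rfl⟩ := hx
    rcases lt_or_gt_of_ne hjk with h1 | h1
    · exact ⟨1, one_mem _, ρ j, mem_gen h1, (one_mul _).symm⟩
    · exact ⟨ρ j, mem_gen ⟨h1, hj⟩, 1, one_mem _, (mul_one _).symm⟩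
  | one => exact ⟨1, one_mem _, 1, one_mem _, (one_mul _).symm⟩
  | mul x y _ _ hx hy =>
    obtain ⟨v, hv, u, hu, rfl⟩ := hx
    obtain ⟨v', hv', u', hu', rfl⟩ := hy
    refine ⟨v * v', mul_mem hv hv', u * u', mul_mem hu hu', ?_⟩
    have := commute_gen h hv' hu
    calc v * u * (v' * u') = v * (u * v') * u' := by group
      _ = v * (v' * u) * u' := by rw [this]
      _ = v * v' * (u * u') := by group
  | inv x _ hx =>
    obtain ⟨v, hv, u, hu, rfl⟩ := hx
    refine ⟨v⁻¹, inv_mem hv, u⁻¹, inv_mem hu, ?_⟩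
    rw [mul_inv_rev, commute_gen h (inv_mem hv) (inv_mem hu)]

theorem gt_inter_lt {n : ℕ} {ρ : ℕ → G} (h : IsStringC n ρ) {i : ℕ} (hi : i + 1 ≤ n) {x : G}
    (h1 : x ∈ gt n ρ i) (h2 : x ∈ lt ρ (i + 1)) : x = 1 := by
  have h3 := h.inter {j | i < j ∧ j < n} {j | j < i + 1} (fun j hj => hj.2)
    (fun j hj => by simp only [Set.mem_ofPred_eq] at *; omega)
  have h4 : {j | i < j ∧ j < n} ∩ {j | j < i + 1} = (∅ : Set ℕ) := by
    ext j; simp only [Set.mem_inter_iff, Set.mem_ofPred_eq, Set.mem_empty_iff_false, iff_false]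
    omega
  rw [h4] at h3
  have h5 : x ∈ gen ρ ∅ := h3 ▸ ⟨h1, h2⟩
  unfold gen at h5
  rw [Set.image_empty, Subgroup.closure_empty] at h5
  exact h5

/-- The first step: the relation between `Γ_{>i}` and `Γ_{<j}` for all conjugates. -/
theorem step {n : ℕ} {ρ : ℕ → G} (h : IsStringC n ρ) {S : Subgroup G}
    (hS : ∀ φ ∈ gen ρ {j | j < n}, Semisparse n ρ (cj S φ)) (d : ℕ) :
    ∀ i j, j = i + 1 + d → j < n → ∀ φ ∈ gen ρ {j | j < n}, ∀ g ∈ gt n ρ i,
      (∃ a ∈ lt ρ j, ∃ s ∈ cj S φ, g = a * s) →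
      ∃ w ∈ gt n ρ i, w ∈ lt ρ j ∧ ∃ s ∈ cj S φ, g = w * s := by
  induction d using Nat.strong_induction_on with
  | _ d ih =>
    intro i j hj hjn φ hφ g hg hgs
    obtain ⟨a, ha, s, hs, hgas⟩ := hgs
    rcases Nat.eq_zero_or_pos d with hd | hd
    · subst hd
      have h1 := (hS φ hφ).three i (by omega)
      have h2 : g ∈ (cj S φ : Set G) := by
        apply h1
        refine ⟨hg, ?_⟩
        rw [hgas]
        refine Set.mul_mem_mul ?_ hs
        rw [hj] at ha
        exact ha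
      exact ⟨1, one_mem _, one_mem _, g, h2, (one_mul g).symm⟩
    · have gtn : ∀ {i x}, x ∈ gt n ρ i → x ∈ gen ρ {j | j < n} := by
        intro i x hx
        exact gen_mono (fun j hj => hj.2) hx
      obtain ⟨k, hk⟩ : ∃ k, k = i + 1 := ⟨_, rfl⟩
      have h1 := (hS 1 (one_mem _)).two φ hφ i k j (by omega) (by omega) hjn
      have hcj : cj (cj S 1) φ = cj S φ := by
        ext x; simp [mem_cj]
      rw [hcj] at h1
      have h2 : g ∈ (gt n ρ i : Set G) ∩ ((lt ρ j : Set G) * (cj S φ : Set G)) :=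
        ⟨hg, hgas ▸ Set.mul_mem_mul ha hs⟩
      obtain ⟨_, ⟨γ, hγ, w, ⟨hw1, hw2⟩, rfl⟩, s', hs', hg'⟩ := h1 h2
      dsimp only at hg'
      rw [SetLike.mem_coe] at hγ hw1 hw2 hs'
      obtain ⟨v, hv, u, hu, rfl⟩ := del_split h hγ
      have hvi : v ∈ gt n ρ i := gen_mono (fun l (hl : k < l ∧ l < n) =>
        (⟨by omega, hl.2⟩ : i < l ∧ l < n)) hv
      -- first use of the induction hypothesis
      have hwn := gtn hw1
      obtain ⟨y, hy1, hy2, τ, hτ, hyτ⟩ := ih (k - i - 1) (by omega) i k (by omega) (by omega)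
        (φ * w⁻¹) (mul_mem hφ (inv_mem hwn)) (v⁻¹ * g * w⁻¹)
        (mul_mem (mul_mem (inv_mem hvi) hg) (inv_mem hw1))
        ⟨u, hu, w * s' * w⁻¹, by
          rw [mem_cj] at hs' ⊢
          have : φ * w⁻¹ * (w * s' * w⁻¹) * (φ * w⁻¹)⁻¹ = φ * s' * φ⁻¹ := by group
          rw [this]; exact hs', by rw [← hg']; group⟩
      have hk1 : y ∈ lt ρ j := gen_mono (fun l hl => by
        simp only [Set.mem_ofPred_eq] at *; omega) hy2
      have hyw1 : y * w ∈ gt n ρ i := mul_mem hy1 hw1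
      have hyw2 : y * w ∈ lt ρ j := mul_mem hk1 hw2
      set τ' := w⁻¹ * τ * w with hτ'
      have hτ's : τ' ∈ cj S φ := by
        rw [mem_cj] at hτ ⊢
        have : φ * τ' * φ⁻¹ = φ * w⁻¹ * τ * (φ * w⁻¹)⁻¹ := by rw [hτ']; group
        rw [this]; exact hτ
      have hg2 : g = v * (y * w) * τ' := by
        have : g = v * (v⁻¹ * g * w⁻¹) * w := by group
        rw [this, hyτ, hτ']; group
      -- second use
      obtain ⟨zz, hz1, hz2, ω, hω, hzω⟩ := ih (j - k - 1) (by omega) k j (by omega) hjn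
        (φ * (y * w)⁻¹) (mul_mem hφ (inv_mem (gtn hyw1))) v hv
        ⟨a * (y * w)⁻¹, mul_mem ha (inv_mem hyw2), (y * w) * (s * τ'⁻¹) * (y * w)⁻¹, by
          rw [mem_cj]
          have : φ * (y * w)⁻¹ * ((y * w) * (s * τ'⁻¹) * (y * w)⁻¹) * (φ * (y * w)⁻¹)⁻¹ =
            φ * (s * τ'⁻¹) * φ⁻¹ := by group
          rw [this, ← mem_cj]
          exact mul_mem hs (inv_mem hτ's), by
          have : v = g * τ'⁻¹ * (y * w)⁻¹ := by rw [hg2]; group
          rw [this, hgas]; group⟩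
      refine ⟨zz * (y * w), mul_mem ?_ hyw1, mul_mem hz2 hyw2,
        (y * w)⁻¹ * ω * (y * w) * τ', mul_mem ?_ hτ's, ?_⟩
      · exact gen_mono (fun l (hl : k < l ∧ l < n) => (⟨by omega, hl.2⟩ : i < l ∧ l < n)) hz1
      · rw [mem_cj] at hω ⊢
        have : φ * ((y * w)⁻¹ * ω * (y * w)) * φ⁻¹ =
          φ * (y * w)⁻¹ * ω * (φ * (y * w)⁻¹)⁻¹ := by group
        rw [this]; exact hω
      · calc g = v * (y * w) * τ' := hg2
          _ = zz * ω * (y * w) * τ' := by rw [← hzω]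
          _ = _ := by group

/-- The product property of `S`. -/
def Prod (n : ℕ) (ρ : ℕ → G) (S : Subgroup G) : Prop :=
  ∀ i j, i < j → j < n → ∀ g ∈ gt n ρ i, ∀ a ∈ lt ρ j, g * a ∈ S →
    ∃ s ∈ S, s ∈ gt n ρ i ∧ ∃ t ∈ S, t ∈ lt ρ j ∧ g * a = s * t

theorem prod_of_semisparse {n : ℕ} {ρ : ℕ → G} (h : IsStringC n ρ) {S : Subgroup G}
    (hS : ∀ φ ∈ gen ρ {j | j < n}, Semisparse n ρ (cj S φ)) : Prod n ρ S := by
  intro i j hij hj g hg a ha hga
  have hc : cj S 1 = S := by ext x; simp [mem_cj]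
  -- `g⁻¹ = a * (g * a)⁻¹`
  obtain ⟨w, hw1, hw2, s, hs, hgws⟩ := step h hS (j - i - 1) i j (by omega) hj 1 (one_mem _) g⁻¹
    (inv_mem hg) ⟨a, ha, (g * a)⁻¹, by rw [hc]; exact inv_mem hga, by group⟩
  rw [hc] at hs
  refine ⟨s⁻¹, inv_mem hs, ?_, w⁻¹ * a, ?_, mul_mem (inv_mem hw2) ha, ?_⟩
  · have : s⁻¹ = g * w := by
      rw [← inv_inj, inv_inv, mul_inv_rev, hgws]; group
    rw [this]
    exact mul_mem hg hw1
  · have : w⁻¹ * a = s * (g * a) := by
      have h1 : g = s⁻¹ * w⁻¹ := by rw [← inv_inj, hgws]; group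
      rw [h1]; group
    rw [this]
    exact mul_mem hs hga
  · have h1 : g = s⁻¹ * w⁻¹ := by rw [← inv_inj, hgws]; group
    rw [h1]; group

theorem gen_shift (ρ : ℕ → G) (I : Set ℕ) :
    gen (fun i => ρ (i + 1)) I = gen ρ ((· + 1) '' I) := by
  unfold gen
  congr 1
  rw [Set.image_image]

theorem shift_gt {n : ℕ} (hn : 1 ≤ n) (ρ : ℕ → G) (i : ℕ) :
    gt (n - 1) (fun i => ρ (i + 1)) i = gt n ρ (i + 1) := by
  unfold gt
  rw [gen_shift]
  congr 1
  ext j
  simp only [Set.mem_image, Set.mem_ofPred_eq]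
  constructor
  · rintro ⟨l, hl, rfl⟩; omega
  · rintro hj; exact ⟨j - 1, by omega, by omega⟩

theorem shift_lt (ρ : ℕ → G) (j : ℕ) :
    lt (fun i => ρ (i + 1)) j = gen ρ {l | 0 < l ∧ l < j + 1} := by
  unfold lt
  rw [gen_shift]
  congr 1
  ext l
  simp only [Set.mem_image, Set.mem_ofPred_eq]
  constructor
  · rintro ⟨l, hl, rfl⟩; omega
  · rintro hj; exact ⟨l - 1, by omega, by omega⟩

theorem shift_all {n : ℕ} (hn : 1 ≤ n) (ρ : ℕ → G) :
    gen (fun i => ρ (i + 1)) {j | j < n - 1} = del n ρ 0 := by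
  unfold del
  rw [gen_shift]
  congr 1
  ext l
  simp only [Set.mem_image, Set.mem_ofPred_eq]
  constructor
  · rintro ⟨l, hl, rfl⟩; omega
  · rintro hj; exact ⟨l - 1, by omega, by omega⟩

theorem last_all {n : ℕ} (hn : 1 ≤ n) (ρ : ℕ → G) :
    gen ρ {j | j < n - 1} = del n ρ (n - 1) := by
  unfold del
  congr 1
  ext l
  simp only [Set.mem_ofPred_eq]
  omega

theorem stringC_shift {n : ℕ} (hn : 1 ≤ n) {ρ : ℕ → G} (h : IsStringC n ρ) :
    IsStringC (n - 1) (fun i => ρ (i + 1)) where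
  involution i hi := h.involution (i + 1) (by omega)
  string i j hij hj := h.string (i + 1) (j + 1) (by omega) (by omega)
  inter I J hI hJ := by
    rw [gen_shift, gen_shift, gen_shift, h.inter, ← Set.image_inter (add_left_injective 1)]
    · rintro _ ⟨j, hj, rfl⟩
      have := hI hj
      simp only [Set.mem_ofPred_eq] at *
      omega
    · rintro _ ⟨j, hj, rfl⟩
      have := hJ hj
      simp only [Set.mem_ofPred_eq] at *
      omega

theorem stringC_last {n : ℕ} {ρ : ℕ → G} (h : IsStringC n ρ) : IsStringC (n - 1) ρ where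
  involution i hi := h.involution i (by omega)
  string i j hij hj := h.string i j hij (by omega)
  inter I J hI hJ := h.inter I J (fun j hj => by
      have := hI hj; simp only [Set.mem_ofPred_eq] at *; omega)
    (fun j hj => by have := hJ hj; simp only [Set.mem_ofPred_eq] at *; omega)

theorem cj_inf_cj {S T : Subgroup G} {φ ψ : G} (hψ : ψ ∈ T) :
    cj (cj S φ ⊓ T) ψ = cj S (φ * ψ) ⊓ T := by
  ext x
  rw [mem_cj, Subgroup.mem_inf, Subgroup.mem_inf, mem_cj, mem_cj]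
  have h1 : φ * (ψ * x * ψ⁻¹) * φ⁻¹ = φ * ψ * x * (φ * ψ)⁻¹ := by group
  rw [h1]
  have h2 : ψ * x * ψ⁻¹ ∈ T ↔ x ∈ T := by
    constructor
    · intro h
      have := mul_mem (mul_mem (inv_mem hψ) h) hψ
      have e : ψ⁻¹ * (ψ * x * ψ⁻¹) * ψ = x := by group
      rwa [e] at this
    · intro h
      exact mul_mem (mul_mem hψ h) (inv_mem hψ)
  rw [h2]

section Main

variable {n : ℕ} {ρ : ℕ → G} {S : Subgroup G}

/-- The hypothesis of the question. -/
structure Hyp (n : ℕ) (ρ : ℕ → G) (S : Subgroup G) : Prop where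
  zero : ∀ φ : G, Semisparse (n - 1) (fun i => ρ (i + 1)) (cj S φ ⊓ del n ρ 0)
  last : ∀ φ : G, Semisparse (n - 1) ρ (cj S φ ⊓ del n ρ (n - 1))
  prod : ∀ φ : G, (cj S φ : Set G) ∩ ((del n ρ 0 : Set G) * (del n ρ (n - 1) : Set G)) =
    ((cj S φ ⊓ del n ρ 0 : Subgroup G) : Set G) * ((cj S φ ⊓ del n ρ (n - 1) : Subgroup G) : Set G)

theorem Hyp.prod_zero (hn : 2 ≤ n) (h : IsStringC n ρ) (H : Hyp n ρ S) (φ : G) :
    Prod (n - 1) (fun i => ρ (i + 1)) (cj S φ ⊓ del n ρ 0) := by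
  apply prod_of_semisparse (stringC_shift (by omega) h)
  intro ψ hψ
  rw [shift_all (by omega)] at hψ
  rw [cj_inf_cj hψ]
  exact H.zero _

theorem Hyp.prod_last (hn : 2 ≤ n) (h : IsStringC n ρ) (H : Hyp n ρ S) (φ : G) :
    Prod (n - 1) ρ (cj S φ ⊓ del n ρ (n - 1)) := by
  apply prod_of_semisparse (stringC_last h)
  intro ψ hψ
  rw [last_all (by omega)] at hψ
  rw [cj_inf_cj hψ]
  exact H.last _

theorem Hyp.prod_all (hn : 2 ≤ n) (h : IsStringC n ρ) (H : Hyp n ρ S) (φ : G) :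
    Prod n ρ (cj S φ) := by
  intro i j hij hj g hg a ha hga
  have hg0 : g ∈ del n ρ 0 := gen_mono (fun l hl => by
    simp only [Set.mem_ofPred_eq] at *; omega) hg
  have ha1 : a ∈ del n ρ (n - 1) := gen_mono (fun l hl => by
    simp only [Set.mem_ofPred_eq] at *; omega) ha
  have h1 : g * a ∈ (cj S φ : Set G) ∩ ((del n ρ 0 : Set G) * (del n ρ (n - 1) : Set G)) :=
    ⟨hga, Set.mul_mem_mul hg0 ha1⟩
  rw [H.prod φ] at h1
  obtain ⟨x, hx, b, hb, hxb⟩ := h1
  dsimp only at hxb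
  rw [SetLike.mem_coe, Subgroup.mem_inf] at hx hb
  -- make `b` an element of `Γ_{<j}`
  obtain ⟨b1, hb1, b2, hb2, hb2j, hbb⟩ : ∃ b1 ∈ cj S φ ⊓ del n ρ 0, ∃ b2 ∈ cj S φ, b2 ∈ lt ρ j ∧
      b = b1 * b2 := by
    rcases Nat.lt_or_ge j (n - 1) with hj1 | hj1
    · have hc : b * a⁻¹ ∈ gt (n - 1) ρ 0 := by
        have h2 : b * a⁻¹ = x⁻¹ * g := by
          have : b = x⁻¹ * (g * a) := by rw [← hxb]; group
          rw [this]; group
        have h3 : b * a⁻¹ ∈ del n ρ 0 := by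
          rw [h2]; exact mul_mem (inv_mem hx.2) hg0
        have h4 : b * a⁻¹ ∈ del n ρ (n - 1) := mul_mem hb.2 (inv_mem ha1)
        have h5 := h.inter {l | l < n ∧ l ≠ 0} {l | l < n ∧ l ≠ n - 1} (fun l hl => hl.1)
          (fun l hl => hl.1)
        have h6 : b * a⁻¹ ∈ gen ρ ({l | l < n ∧ l ≠ 0} ∩ {l | l < n ∧ l ≠ n - 1}) :=
          h5 ▸ ⟨h3, h4⟩
        refine gen_mono ?_ h6
        rintro l ⟨hl1, hl2⟩
        simp only [Set.mem_ofPred_eq] at *
        omega
      obtain ⟨s, hs, hs1, t, ht, ht1, hst⟩ := H.prod_last hn h φ 0 j (by omega) hj1 _ hc a ha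
        (by
          have : b * a⁻¹ * a = b := by group
          rw [this]; exact hb)
      refine ⟨s, ⟨hs.1, ?_⟩, t, ht.1, ht1, ?_⟩
      · refine gen_mono ?_ hs1
        intro l hl
        simp only [Set.mem_ofPred_eq] at *
        omega
      · rw [← hst]; group
    · refine ⟨1, one_mem _, b, hb.1, ?_, (one_mul b).symm⟩
      refine gen_mono ?_ hb.2
      intro l hl
      simp only [Set.mem_ofPred_eq] at *
      omega
  -- the element `x * b1`
  have hx' : x * b1 ∈ cj S φ ⊓ del n ρ 0 := mul_mem hx hb1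
  have hab : a * b2⁻¹ ∈ lt ρ j := mul_mem ha (inv_mem hb2j)
  have hxg : x * b1 = g * (a * b2⁻¹) := by
    have : g * (a * b2⁻¹) = g * a * b2⁻¹ := by group
    rw [this, ← hxb, hbb]; group
  rcases Nat.eq_zero_or_pos i with hi | hi
  · subst hi
    refine ⟨x * b1, hx'.1, ?_, b2, hb2, hb2j, ?_⟩
    · refine gen_mono ?_ hx'.2
      intro l hl
      simp only [Set.mem_ofPred_eq] at *
      omega
    · rw [← hxb, hbb]; group
  · have hab0 : a * b2⁻¹ ∈ lt (fun i => ρ (i + 1)) (j - 1) := by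
      have h3 : a * b2⁻¹ ∈ del n ρ 0 := by
        have : a * b2⁻¹ = g⁻¹ * (x * b1) := by rw [hxg]; group
        rw [this]
        exact mul_mem (inv_mem hg0) hx'.2
      have h5 := h.inter {l | l < n ∧ l ≠ 0} {l | l < j} (fun l hl => hl.1)
          (fun l hl => by simp only [Set.mem_ofPred_eq] at *; omega)
      have h6 : a * b2⁻¹ ∈ gen ρ ({l | l < n ∧ l ≠ 0} ∩ {l | l < j}) := h5 ▸ ⟨h3, hab⟩
      rw [shift_lt]
      refine gen_mono ?_ h6
      rintro l ⟨hl1, hl2⟩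
      simp only [Set.mem_ofPred_eq] at *
      omega
    have hg' : g ∈ gt (n - 1) (fun i => ρ (i + 1)) (i - 1) := by
      rw [shift_gt (by omega)]
      have : i - 1 + 1 = i := by omega
      rw [this]; exact hg
    obtain ⟨s, hs, hs1, t, ht, ht1, hst⟩ := H.prod_zero hn h φ (i - 1) (j - 1) (by omega)
      (by omega) g hg' (a * b2⁻¹) hab0 (hxg ▸ hx')
    refine ⟨s, hs.1, ?_, t * b2, mul_mem ht.1 hb2, mul_mem ?_ hb2j, ?_⟩
    · rw [shift_gt (by omega)] at hs1
      have : i - 1 + 1 = i := by omega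
      rw [this] at hs1; exact hs1
    · rw [shift_lt] at ht1
      refine gen_mono ?_ ht1
      intro l hl
      simp only [Set.mem_ofPred_eq] at *
      omega
    · calc g * a = g * (a * b2⁻¹) * b2 := by group
        _ = s * t * b2 := by rw [hst]
        _ = _ := by group

/-- Let `Γ` be a string C-group of rank `n ≥ 2` and `S` a subgroup of `Γ` such that for every
`φ ∈ Γ` the groups `S^φ ∩ Γ_0` and `S^φ ∩ Γ_{n-1}` are semisparse in `Γ_0` and in `Γ_{n-1}` and
`S^φ ∩ Γ_0 Γ_{n-1} = (S^φ ∩ Γ_0) (S^φ ∩ Γ_{n-1})`. Then `S` is semisparse in `Γ`. -/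
theorem result (G : Type) [Group G] (n : ℕ) (hn : 2 ≤ n) (ρ : ℕ → G) (h : IsStringC n ρ)
    (hG : gen ρ {j | j < n} = ⊤) (S : Subgroup G)
    (h0 : ∀ φ : G, Semisparse (n - 1) (fun i => ρ (i + 1)) (cj S φ ⊓ del n ρ 0))
    (h1 : ∀ φ : G, Semisparse (n - 1) ρ (cj S φ ⊓ del n ρ (n - 1)))
    (h2 : ∀ φ : G, (cj S φ : Set G) ∩ ((del n ρ 0 : Set G) * (del n ρ (n - 1) : Set G)) =
      ((cj S φ ⊓ del n ρ 0 : Subgroup G) : Set G) *
        ((cj S φ ⊓ del n ρ (n - 1) : Subgroup G) : Set G)) :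
    Semisparse n ρ S := by
  have H : Hyp n ρ S := ⟨h0, h1, h2⟩
  refine ⟨hG ▸ le_top, ?_, ?_, ?_⟩
  · intro φ _ i hi
    rw [Set.eq_empty_iff_forall_notMem]
    rintro _ ⟨hx, g, hg, _, rfl, rfl⟩
    dsimp only at hx
    rw [SetLike.mem_coe] at hx hg
    rcases Nat.lt_or_ge i (n - 1) with hi1 | hi1
    · obtain ⟨b, hb, a, ha, rfl⟩ := del_split h hg
      have ha' : a * ρ i ∈ lt ρ (i + 1) := by
        refine mul_mem (gen_mono ?_ ha) (mem_gen (by simp))
        intro l hl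
        simp only [Set.mem_ofPred_eq] at *
        omega
      rw [mul_assoc] at hx
      obtain ⟨s, hs, hs1, t, ht, ht1, hst⟩ := H.prod_all hn h φ i (i + 1) (by omega) (by omega)
        b hb _ ha' hx
      have h3 : s⁻¹ * b = 1 := by
        apply gt_inter_lt h (i := i) (by omega) (mul_mem (inv_mem hs1) hb)
        have : s⁻¹ * b = t * (a * ρ i)⁻¹ := by
          rw [eq_mul_inv_iff_mul_eq, mul_assoc, hst]; group
        rw [this]
        exact mul_mem ht1 (inv_mem ha')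
      have h4 : a * ρ i = t := by
        have : t = s⁻¹ * (s * t) := by group
        rw [this, ← hst, ← mul_assoc, h3, one_mul]
      have h5 := (H.last φ).one 1 (one_mem _) i hi1
      rw [Set.eq_empty_iff_forall_notMem] at h5
      apply h5 (a * ρ i)
      refine ⟨?_, ?_⟩
      · rw [SetLike.mem_coe, mem_cj]
        simp only [one_mul, inv_one, mul_one]
        rw [h4]
        refine ⟨ht, gen_mono ?_ ht1⟩
        intro l hl
        simp only [Set.mem_ofPred_eq] at *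
        omega
      · refine Set.mul_mem_mul ?_ rfl
        rw [SetLike.mem_coe]
        refine gen_mono ?_ ha
        intro l hl
        simp only [Set.mem_ofPred_eq] at *
        omega
    · obtain rfl : i = n - 1 := by omega
      have hg' : g ∈ lt ρ (n - 1) := by
        refine gen_mono ?_ hg
        intro l hl
        simp only [Set.mem_ofPred_eq] at *
        omega
      have hρ : ρ (n - 1) ∈ gt n ρ (n - 2) := mem_gen (by
        simp only [Set.mem_ofPred_eq]; omega)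
      have hx' : (ρ (n - 1))⁻¹ * g⁻¹ ∈ cj S φ := by
        rw [← mul_inv_rev]; exact inv_mem hx
      obtain ⟨s, hs, hs1, t, ht, ht1, hst⟩ := H.prod_all hn h φ (n - 2) (n - 1) (by omega)
        (by omega) _ (inv_mem hρ) _ (inv_mem hg') hx'
      have h3 : s⁻¹ * (ρ (n - 1))⁻¹ = 1 := by
        apply gt_inter_lt h (i := n - 2) (by omega) (mul_mem (inv_mem hs1) (inv_mem hρ))
        have : s⁻¹ * (ρ (n - 1))⁻¹ = t * g := by
          have : t = s⁻¹ * (s * t) := by group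
          rw [this, ← hst]; group
        rw [this]
        have hn2 : n - 2 + 1 = n - 1 := by omega
        rw [hn2]
        exact mul_mem ht1 hg'
      have h4 : ρ (n - 1) = s⁻¹ := by
        rw [← inv_inj, inv_inv]
        have := mul_eq_one_iff_eq_inv.1 h3
        rw [inv_inv] at this
        rw [← this, inv_inv] 
      have h5 := (H.zero φ).one 1 (one_mem _) (n - 2) (by omega)
      rw [Set.eq_empty_iff_forall_notMem] at h5
      apply h5 (ρ (n - 1))
      have hn2 : n - 2 + 1 = n - 1 := by omega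
      refine ⟨?_, ?_⟩
      · rw [SetLike.mem_coe, mem_cj]
        simp only [one_mul, inv_one, mul_one]
        refine ⟨?_, ?_⟩
        · rw [h4]
          exact (cj S φ).inv_mem hs
        refine mem_gen ?_
        simp only [Set.mem_ofPred_eq]
        omega
      · refine ⟨1, one_mem _, ρ (n - 1), by rw [hn2]; rfl, by simp⟩
  · intro φ _ i k j hik hkj hj
    rintro x ⟨hx, u, hu, s, hs, hus⟩
    rw [SetLike.mem_coe] at hx hu hs
    dsimp only at hus
    -- `s⁻¹ = x⁻¹ * u`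
    obtain ⟨b, hb, hb1, a, ha, ha1, hba⟩ := H.prod_all hn h φ i j (by omega) hj x⁻¹ (inv_mem hx) u
      hu (by
        have : x⁻¹ * u = s⁻¹ := by rw [← hus]; group
        rw [this]; exact inv_mem hs)
    have e : x * b = u * a⁻¹ := by
      have : b = x⁻¹ * u * a⁻¹ := by rw [hba]; group
      rw [this]; group
    refine ⟨x * b, ⟨1, one_mem _, x * b, ⟨mul_mem hx hb1, ?_⟩, one_mul _⟩, b⁻¹, inv_mem hb, ?_⟩
    · rw [e]; exact mul_mem hu (inv_mem ha1)
    · dsimp only; group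
  · intro i hi
    rintro x ⟨hx, u, hu, s, hs, hus⟩
    rw [SetLike.mem_coe] at hx hu hs
    dsimp only at hus
    have hc : cj S 1 = S := by ext x; simp [mem_cj]
    obtain ⟨b, hb, hb1, a, ha, ha1, hba⟩ := H.prod_all hn h 1 i (i + 1) (by omega) (by omega) x⁻¹
      (inv_mem hx) u hu (by
        have : x⁻¹ * u = s⁻¹ := by rw [← hus]; group
        rw [this, hc]; exact inv_mem hs)
    rw [hc] at hb ha
    have e : x * b = u * a⁻¹ := by
      have : b = x⁻¹ * u * a⁻¹ := by rw [hba]; group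
      rw [this]; group
    have h3 : x * b = 1 := by
      apply gt_inter_lt h (i := i) (by omega) (mul_mem hx hb1)
      rw [e]
      exact mul_mem hu (inv_mem ha1)
    have h4 : x = b⁻¹ := mul_eq_one_iff_eq_inv.1 h3
    rw [SetLike.mem_coe, h4]
    exact inv_mem hb

end Main

end Pool.Agent.Results.MP_bc764a_al.SemisparseSufficient
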